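import Pool.Agent.MT100.Stmts

/-! MT100, module GCL: the power series of G-type form a ring containing the polynomials -/

set_option autoImplicit false

noncomputable section

namespace Pool.Agent.Helper5_MT100

open Pool.Agent.MT100 Polynomial

/-- the bound with the constant `C` -/
def GT (C : ℕ) (f : PowerSeries ℚ) : Prop :=
  ∀ k : ℕ, |PowerSeries.coeff k f| ≤ (C : ℚ) ^ (k + 1) ∧
    ∃ D : ℕ, 0 < D ∧ D ≤ C ^ (k + 1) ∧ ∀ i ≤ k, ∃ z : ℤ, (D : ℚ) * PowerSeries.coeff i f = z

theorem gtype_iff (f : PowerSeries ℚ) : GType f ↔ ∃ C : ℕ, 0 < C ∧ GT C f := Iff.rfl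

theorem gadd {f g : PowerSeries ℚ} (hf : GType f) (hg : GType g) : GType (f + g) := by
  obtain ⟨A, hA, hf⟩ := hf
  obtain ⟨B, hB, hg⟩ := hg
  refine ⟨A * B + A + B, by positivity, fun k => ?_⟩
  obtain ⟨h1, D, hD, hD', hDz⟩ := hf k
  obtain ⟨h2, E, hE, hE', hEz⟩ := hg k
  refine ⟨?_, D * E, Nat.mul_pos hD hE, ?_, fun i hi => ?_⟩
  · rw [map_add]
    have hAq : (1 : ℚ) ≤ A := by exact_mod_cast hA
    have hBq : (1 : ℚ) ≤ B := by exact_mod_cast hB
    have h3 : (A : ℚ) ^ (k + 1) + (B : ℚ) ^ (k + 1) ≤ ((A : ℚ) + B) ^ (k + 1) :=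
      pow_add_pow_le (by linarith) (by linarith) (Nat.succ_ne_zero k)
    have h4 : ((A : ℚ) + B) ^ (k + 1) ≤ (((A * B + A + B : ℕ)) : ℚ) ^ (k + 1) := by
      apply pow_le_pow_left₀ (by linarith)
      push_cast
      nlinarith
    exact (abs_add_le _ _).trans ((add_le_add h1 h2).trans (h3.trans h4))
  · calc D * E ≤ A ^ (k + 1) * B ^ (k + 1) := Nat.mul_le_mul hD' hE'
      _ = (A * B) ^ (k + 1) := (mul_pow _ _ _).symm
      _ ≤ (A * B + A + B) ^ (k + 1) := Nat.pow_le_pow_left (by omega) _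
  · obtain ⟨a, ha⟩ := hDz i hi
    obtain ⟨b, hb⟩ := hEz i hi
    refine ⟨E * a + D * b, ?_⟩
    rw [map_add]
    push_cast
    rw [← ha, ← hb]
    ring

theorem gneg {f : PowerSeries ℚ} (hf : GType f) : GType (-f) := by
  obtain ⟨A, hA, hf⟩ := hf
  refine ⟨A, hA, fun k => ?_⟩
  obtain ⟨h1, D, hD, hD', hDz⟩ := hf k
  refine ⟨?_, D, hD, hD', fun i hi => ?_⟩
  · rw [map_neg, abs_neg]
    exact h1
  · obtain ⟨a, ha⟩ := hDz i hi
    refine ⟨-a, ?_⟩
    rw [map_neg]
    push_cast
    rw [← ha]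
    ring

theorem gsub {f g : PowerSeries ℚ} (hf : GType f) (hg : GType g) : GType (f - g) := by
  rw [sub_eq_add_neg]
  exact gadd hf (gneg hg)

theorem gmul {f g : PowerSeries ℚ} (hf : GType f) (hg : GType g) : GType (f * g) := by
  obtain ⟨A, hA, hf⟩ := hf
  obtain ⟨B, hB, hg⟩ := hg
  refine ⟨2 * (A + B) ^ 2, by positivity, fun k => ?_⟩
  obtain ⟨h1, D, hD, hD', hDz⟩ := hf k
  obtain ⟨h2, E, hE, hE', hEz⟩ := hg k
  have hAq : (1 : ℚ) ≤ A := by exact_mod_cast hA
  have hBq : (1 : ℚ) ≤ B := by exact_mod_cast hB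
  refine ⟨?_, D * E, Nat.mul_pos hD hE, ?_, fun i hi => ?_⟩
  · rw [PowerSeries.coeff_mul]
    have h3 : ∀ p ∈ Finset.HasAntidiagonal.antidiagonal k, |PowerSeries.coeff p.1 f * PowerSeries.coeff p.2 g| ≤
        ((A : ℚ) + B) ^ (k + 2) := by
      intro p hp
      have hp' : p.1 + p.2 = k := Finset.HasAntidiagonal.mem_antidiagonal.1 hp
      rw [abs_mul]
      have h4 : |PowerSeries.coeff p.1 f| ≤ ((A : ℚ) + B) ^ (p.1 + 1) :=
        (hf p.1).1.trans (pow_le_pow_left₀ (by linarith) (by linarith) _)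
      have h5 : |PowerSeries.coeff p.2 g| ≤ ((A : ℚ) + B) ^ (p.2 + 1) :=
        (hg p.2).1.trans (pow_le_pow_left₀ (by linarith) (by linarith) _)
      calc |PowerSeries.coeff p.1 f| * |PowerSeries.coeff p.2 g|
          ≤ ((A : ℚ) + B) ^ (p.1 + 1) * ((A : ℚ) + B) ^ (p.2 + 1) :=
            mul_le_mul h4 h5 (abs_nonneg _) (by positivity)
        _ = ((A : ℚ) + B) ^ (k + 2) := by
            rw [← pow_add]
            congr 1
            omega
    have h6 : |∑ p ∈ Finset.HasAntidiagonal.antidiagonal k, PowerSeries.coeff p.1 f * PowerSeries.coeff p.2 g| ≤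
        ((k : ℚ) + 1) * ((A : ℚ) + B) ^ (k + 2) := by
      refine (Finset.abs_sum_le_sum_abs _ _).trans ((Finset.sum_le_sum h3).trans ?_)
      rw [Finset.sum_const, Finset.Nat.card_antidiagonal, nsmul_eq_mul]
      push_cast
      exact le_rfl
    have h7 : ((k : ℚ) + 1) ≤ 2 ^ (k + 1) := by
      have h8 : k + 1 < 2 ^ (k + 1) := Nat.lt_two_pow_self
      exact_mod_cast h8.le
    have h9 : ((A : ℚ) + B) ^ (k + 2) ≤ (((A : ℚ) + B) ^ 2) ^ (k + 1) := by
      rw [← pow_mul]
      exact pow_le_pow_right₀ (by linarith) (by omega)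
    refine h6.trans ?_
    push_cast
    rw [mul_pow]
    exact mul_le_mul h7 h9 (by positivity) (by positivity)
  · calc D * E ≤ A ^ (k + 1) * B ^ (k + 1) := Nat.mul_le_mul hD' hE'
      _ = (A * B) ^ (k + 1) := (mul_pow _ _ _).symm
      _ ≤ (2 * (A + B) ^ 2) ^ (k + 1) := Nat.pow_le_pow_left (by nlinarith) _
  · rw [PowerSeries.coeff_mul, Finset.mul_sum]
    have h3 : ∀ p ∈ Finset.HasAntidiagonal.antidiagonal i, ∃ z : ℤ, ((D * E : ℕ) : ℚ) *
        (PowerSeries.coeff p.1 f * PowerSeries.coeff p.2 g) = z := by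
      intro p hp
      have hp' : p.1 + p.2 = i := Finset.HasAntidiagonal.mem_antidiagonal.1 hp
      obtain ⟨a, ha⟩ := hDz p.1 (by omega)
      obtain ⟨b, hb⟩ := hEz p.2 (by omega)
      refine ⟨a * b, ?_⟩
      push_cast
      rw [← ha, ← hb]
      ring
    choose! z hz using h3
    refine ⟨∑ p ∈ Finset.HasAntidiagonal.antidiagonal i, z p, ?_⟩
    rw [Finset.sum_congr rfl hz]
    push_cast
    rfl

theorem gconst (a : ℚ) : GType (PowerSeries.C a) := by
  refine ⟨a.num.natAbs + a.den, by have := a.den_pos; omega, fun k => ?_⟩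
  have hC : 1 ≤ a.num.natAbs + a.den := by have := a.den_pos; omega
  have hle : a.num.natAbs + a.den ≤ (a.num.natAbs + a.den) ^ (k + 1) := by
    calc a.num.natAbs + a.den = (a.num.natAbs + a.den) ^ 1 := (pow_one _).symm
      _ ≤ _ := Nat.pow_le_pow_right hC (by omega)
  refine ⟨?_, a.den, a.den_pos, by omega, fun i _ => ?_⟩
  · rw [PowerSeries.coeff_C]
    split_ifs with hk
    · have h1 : |a| ≤ (a.num.natAbs : ℚ) := by
        have h2 : |a| = (a.num.natAbs : ℚ) / a.den := by
          conv_lhs => rw [← Rat.num_div_den a]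
          rw [abs_div, Nat.abs_cast, Nat.cast_natAbs, Int.cast_abs]
        rw [h2]
        apply div_le_self (Nat.cast_nonneg _)
        exact_mod_cast a.den_pos
      refine h1.trans ?_
      have h3 : a.num.natAbs ≤ (a.num.natAbs + a.den) ^ (k + 1) := by omega
      exact_mod_cast h3
    · rw [abs_zero]
      positivity
  · rw [PowerSeries.coeff_C]
    split_ifs with hk
    · exact ⟨a.num, Rat.den_mul_eq_num a⟩
    · exact ⟨0, by simp⟩

theorem gX : GType (PowerSeries.X : PowerSeries ℚ) := by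
  refine ⟨1, one_pos, fun k => ⟨?_, 1, one_pos, by simp, fun i _ => ?_⟩⟩
  · rw [PowerSeries.coeff_X]
    split_ifs <;> simp
  · rw [PowerSeries.coeff_X]
    split_ifs
    · exact ⟨1, by simp⟩
    · exact ⟨0, by simp⟩

theorem gpoly (p : ℚ[X]) : GType (p : PowerSeries ℚ) := by
  induction p using Polynomial.induction_on with
  | C a =>
    rw [Polynomial.coe_C]
    exact gconst a
  | add p q hp hq =>
    rw [Polynomial.coe_add]
    exact gadd hp hq
  | monomial n a h =>
    have h1 : ((Polynomial.C a * Polynomial.X ^ (n + 1) : ℚ[X]) : PowerSeries ℚ) =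
        ((Polynomial.C a * Polynomial.X ^ n : ℚ[X]) : PowerSeries ℚ) * PowerSeries.X := by
      rw [pow_succ, ← mul_assoc, Polynomial.coe_mul, Polynomial.coe_X]
    rw [h1]
    exact gmul h gX

theorem gcl : GclStmt := by
  refine ⟨gpoly, fun f g hf hg => gadd hf hg, fun f g hf hg => gsub hf hg,
    fun f g hf hg => gmul hf hg, fun σ s f => ?_, fun σ s f => ?_⟩
  · classical
    induction s using Finset.induction_on with
    | empty =>
      intro _
      rw [Finset.sum_empty]
      have h := gconst 0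
      rwa [map_zero] at h
    | insert a s ha ih =>
      intro h
      rw [Finset.sum_insert ha]
      exact gadd (h a (Finset.mem_insert_self a s))
        (ih fun i hi => h i (Finset.mem_insert_of_mem hi))
  · classical
    induction s using Finset.induction_on with
    | empty =>
      intro _
      rw [Finset.prod_empty]
      have h := gconst 1
      rwa [map_one] at h
    | insert a s ha ih =>
      intro h
      rw [Finset.prod_insert ha]
      exact gmul (h a (Finset.mem_insert_self a s))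
        (ih fun i hi => h i (Finset.mem_insert_of_mem hi))

end Pool.Agent.Helper5_MT100
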